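import Mathlib

/-!
Gaussian power sums: for `p = 7`, `r = 5` the valuation of `G_{r(p-1)}(p)` is `5`, not `3`.
-/

namespace Pool.Agent.Results.MP_887aa5_nt.ValuationFive

/-- The Gaussian power sum `G_n(p) = ∑_{a,b ∈ {1,...,p-1}} (a + b i)^n` in `ℤ[i]`. -/
def G (n p : ℕ) : GaussianInt :=
  ∑ a ∈ Finset.Icc 1 (p - 1), ∑ b ∈ Finset.Icc 1 (p - 1), (⟨(a : ℤ), (b : ℤ)⟩ : GaussianInt) ^ n

/-- `k ≤ v_p(z)`: both coordinates of `z` are divisible by `p^k`. -/
def ValGe (p k : ℕ) (z : GaussianInt) : Prop := (p : ℤ) ^ k ∣ z.re ∧ (p : ℤ) ^ k ∣ z.im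

/-- `v_p(z) = k`. -/
def ValEq (p k : ℕ) (z : GaussianInt) : Prop := ValGe p k z ∧ ¬ ValGe p (k + 1) z

/-- The statement of the question. -/
def Q1 : Prop :=
  ∀ p : ℕ, p.Prime → p % 4 = 3 → 7 ≤ p → ∀ r : ℕ, 1 ≤ r →
    (Even r → ValEq p 0 (G (r * (p - 1)) p)) ∧ (Odd r → ValEq p 3 (G (r * (p - 1)) p))

theorem G_value : G 30 7 = ⟨0, -6264101156848215194673755568⟩ := by decide +kernel

/-- For `p = 7`, `r = 5` the valuation equals `5`; hence the asserted description is false. -/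
theorem result : ValEq 7 5 (G (5 * (7 - 1)) 7) ∧ ¬ Q1 := by
  have e : G (5 * (7 - 1)) 7 = ⟨0, -6264101156848215194673755568⟩ := G_value
  refine ⟨?_, ?_⟩
  · rw [e]
    refine ⟨⟨by norm_num, by norm_num⟩, ?_⟩
    intro h
    have h2 := h.2
    norm_num at h2
  · intro h
    have h1 := ((h 7 (by norm_num) (by norm_num) le_rfl 5 (by norm_num)).2 (by decide)).2
    apply h1
    rw [e]
    exact ⟨by norm_num, by norm_num⟩

end Pool.Agent.Results.MP_887aa5_nt.ValuationFive
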